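import Mathlib
import Pool.Agent.H8.FExt

set_option autoImplicit false

namespace Pool.Agent.Results.MP_77d395_lc.CH

open Set Filter Topology Function Pool.Agent.H8.FExt

open Classical in
theorem result (h : Cardinal.continuum.{0} = Cardinal.aleph 1) :
    ∃ (Y : Type) (e : ℕ → Y) (st : (ℕ → ℕ) → Y → Y), Injective e ∧ ¬ Surjective e ∧
      (∀ f x, st f (e x) = e (f x)) ∧ (∀ f g, st (g ∘ f) = st g ∘ st f) ∧
      (∀ f g ξ, st (fun x => if f x = g x then 1 else 0) ξ =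
        if st f ξ = st g ξ then e 1 else e 0) ∧
      (∀ ξ η, ∃ p₁ p₂ ζ, st p₁ ζ = ξ ∧ st p₂ ζ = η) ∧
      letI := TopologicalSpace.generateFrom
        (range fun A : Set ℕ => {ξ | st (fun x => if x ∈ A then 1 else 0) ξ = e 1})
      T2Space Y ∧ ∀ U : ℕ → Set Y, (∀ n, IsOpen (U n)) → ⋃ n, U n = univ →
        ∃ t : Finset ℕ, ⋃ n ∈ t, U n = univ := by
  obtain ⟨Y, h1, h2, h3, h4, h5⟩ := main h
  let e : ℕ → Y := fun n => ⟨pure n, h1 n⟩
  let st : (ℕ → ℕ) → Y → Y := fun f u => ⟨u.1.map f, h3 _ u.2 _ ⟨f, rfl⟩⟩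
  have hi : Injective e := fun a b hab => Ultrafilter.pure_injective (congrArg Subtype.val hab)
  have hc : ∀ (f : ℕ → ℕ) (u : Y) (n : ℕ), (∀ᶠ x in u.1, f x = n) → st f u = e n :=
    fun f u n hn => Subtype.ext (Ultrafilter.coe_le_coe.1 (le_pure_iff.2 hn))
  have hA : ∀ (p : ℕ → Prop) [DecidablePred p] (u : Y),
      st (fun x => if p x then 1 else 0) u = if ∀ᶠ x in u.1, p x then e 1 else e 0 := by
    intro p _ u
    split_ifs with hp
    · exact hc _ _ _ (hp.mono fun x hx => if_pos hx)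
    · exact hc _ _ _ ((Ultrafilter.eventually_not.2 hp).mono fun x hx => if_neg hx)
  refine ⟨Y, e, st, hi, fun hs => ?_, fun f x => rfl, fun f g => rfl, fun f g ξ => ?_,
    fun ξ η => ?_, ?_⟩
  · obtain ⟨ζ, hζ, h6⟩ := h5 pure h1
    obtain ⟨n, hn⟩ := hs ⟨ζ, hζ⟩
    obtain rfl : pure n = ζ := congrArg Subtype.val hn
    obtain ⟨m, hm, h7⟩ := frequently_atTop.1 (h6 {n} rfl) (n + 1)
    obtain rfl : m = n := h7
    omega
  · rw [hA]
    have : (∀ᶠ x in ξ.1, f x = g x) ↔ st f ξ = st g ξ :=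
      ⟨fun h => Subtype.ext (Ultrafilter.coe_injective (map_congr h)),
        fun h => h2 _ ξ.2 f g (congrArg Subtype.val h)⟩
    by_cases hp : st f ξ = st g ξ
    · rw [if_pos hp, if_pos (this.2 hp)]
    · rw [if_neg hp, if_neg (mt this.1 hp)]
  · obtain ⟨c, hc, ⟨f, hf⟩, g, hg⟩ := h4 _ ξ.2 _ η.2
    exact ⟨f, g, ⟨c, hc⟩, Subtype.ext hf, Subtype.ext hg⟩
  have ht : TopologicalSpace.generateFrom
      (range fun A : Set ℕ => {ξ | st (fun x => if x ∈ A then 1 else 0) ξ = e 1}) =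
      (instTopologicalSpaceSubtype : TopologicalSpace Y) := by
    refine Eq.trans ?_ induced_generateFrom_eq.symm
    rw [ultrafilterBasis, ← range_comp]
    refine congrArg (fun F => TopologicalSpace.generateFrom (range F)) (funext fun A => ?_)
    ext u
    simp only [mem_setOf_eq, hA]
    change _ ↔ ∀ᶠ x in u.1, x ∈ A
    split_ifs with hp
    · exact iff_of_true rfl hp
    · exact iff_of_false (fun h => zero_ne_one (hi h)) hp
  rw [ht]
  refine ⟨inferInstance, fun U hU hcov => by_contra fun hn => ?_⟩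
  have : ∀ n, ∃ u : Y, ∀ k ≤ n, u ∉ U k := fun n => by
    by_contra hc
    push Not at hc
    refine hn ⟨Finset.range (n + 1), eq_univ_of_forall fun u => ?_⟩
    obtain ⟨k, hk, hu⟩ := hc u
    exact mem_iUnion₂.2 ⟨k, Finset.mem_range.2 (Nat.lt_succ_of_le hk), hu⟩
  choose ξ hξ using this
  obtain ⟨ζ, hζ, h6⟩ := h5 (fun n => (ξ n).1) fun n => (ξ n).2
  obtain ⟨m, hm⟩ := mem_iUnion.1 (hcov.symm ▸ mem_univ (⟨ζ, hζ⟩ : Y))
  obtain ⟨O, hO, hOU⟩ := isOpen_induced_iff.1 (hU m)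
  rw [← hOU] at hm
  obtain ⟨_, ⟨A, rfl⟩, h7, h8⟩ := ultrafilterBasis_is_basis.exists_subset_of_mem_open hm hO
  obtain ⟨n, h9, h10⟩ := frequently_atTop.1 (h6 A h7) m
  exact hξ n m h9 (hOU ▸ h8 h10)

end Pool.Agent.Results.MP_77d395_lc.CH
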